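import Mathlib

/-!
# Prime right V-rings of countable dimension are right primitive
-/

set_option autoImplicit false

universe u

namespace Pool.Agent.Results.MP_2175e6_al.CountableDimensional

open MulOpposite

section basics

variable {R : Type u} [Ring R]

/-- The two-sided ideal generated by `w`, as an additive subgroup. -/
def gen (w : R) : AddSubgroup R := AddSubgroup.closure {y | ∃ r s : R, y = r * w * s}

theorem self_mem_gen (w : R) : w ∈ gen w :=
  AddSubgroup.subset_closure ⟨1, 1, by simp⟩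

theorem mul_left_mem_gen {w x : R} (a : R) (hx : x ∈ gen w) : a * x ∈ gen w := by
  refine AddSubgroup.closure_induction (p := fun x _ => a * x ∈ gen w) ?_ ?_ ?_ ?_ hx
  · rintro y ⟨r, s, rfl⟩
    exact AddSubgroup.subset_closure ⟨a * r, s, by simp only [mul_assoc]⟩
  · simp
  · intro y z _ _ hy hz
    rw [mul_add]
    exact add_mem hy hz
  · intro y _ hy
    rw [mul_neg]
    exact neg_mem hy

theorem mul_right_mem_gen {w x : R} (a : R) (hx : x ∈ gen w) : x * a ∈ gen w := by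
  refine AddSubgroup.closure_induction (p := fun x _ => x * a ∈ gen w) ?_ ?_ ?_ ?_ hx
  · rintro y ⟨r, s, rfl⟩
    exact AddSubgroup.subset_closure ⟨r, s * a, by simp only [mul_assoc]⟩
  · simp
  · intro y z _ _ hy hz
    rw [add_mul]
    exact add_mem hy hz
  · intro y _ hy
    rw [neg_mul]
    exact neg_mem hy

theorem gen_le {w v : R} (h : w ∈ gen v) : gen w ≤ gen v := by
  rw [gen, AddSubgroup.closure_le]
  rintro y ⟨r, s, rfl⟩
  exact mul_right_mem_gen s (mul_left_mem_gen r h)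

/-- In a right V-ring a right ideal maximal with respect to not containing `a` is a maximal right
ideal. -/
theorem exists_coatom
    (hV : ∀ (M : Type u) [AddCommGroup M] [Module Rᵐᵒᵖ M],
      IsSimpleModule Rᵐᵒᵖ M → Module.Injective Rᵐᵒᵖ M)
    (B : Submodule Rᵐᵒᵖ R) (a : R) (ha : a ∉ B) :
    ∃ K : Submodule Rᵐᵒᵖ R, IsCoatom K ∧ B ≤ K ∧ a ∉ K := by
  obtain ⟨K, hBK, hK⟩ := zorn_le_nonempty₀ {K : Submodule Rᵐᵒᵖ R | a ∉ K}
    (by
      intro c hc hchain y hy
      refine ⟨sSup c, ?_, fun z hz => le_sSup hz⟩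
      intro h
      rw [Submodule.mem_sSup_of_directed ⟨y, hy⟩ hchain.directedOn] at h
      obtain ⟨z, hz, haz⟩ := h
      exact hc hz haz) B ha
  have haK : a ∉ K := hK.prop
  refine ⟨K, ?_, hBK, haK⟩
  -- every nonzero submodule of `R ⧸ K` contains the image of `a`
  have key : ∀ N : Submodule Rᵐᵒᵖ (R ⧸ K), N ≠ ⊥ → Submodule.Quotient.mk a ∈ N := by
    intro N hN
    by_contra h
    apply hN
    have h1 : K ≤ N.comap K.mkQ := by
      intro k hk
      rw [Submodule.mem_comap, Submodule.mkQ_apply, (Submodule.Quotient.mk_eq_zero K).2 hk]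
      exact N.zero_mem
    have h2 : N.comap K.mkQ ≤ K := hK.le_of_ge (show a ∉ N.comap K.mkQ from h) h1
    rw [eq_bot_iff]
    intro z hz
    obtain ⟨y, rfl⟩ := K.mkQ_surjective z
    have h3 : y ∈ K := h2 hz
    rw [Submodule.mem_bot, Submodule.mkQ_apply, (Submodule.Quotient.mk_eq_zero K).2 h3]
  have ha0 : (Submodule.Quotient.mk a : R ⧸ K) ≠ 0 := by
    intro h
    exact haK ((Submodule.Quotient.mk_eq_zero K).1 h)
  let S : Submodule Rᵐᵒᵖ (R ⧸ K) := Submodule.span Rᵐᵒᵖ {Submodule.Quotient.mk a}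
  have haS : (Submodule.Quotient.mk a : R ⧸ K) ∈ S := Submodule.mem_span_singleton_self _
  have hSatom : IsAtom S := by
    refine ⟨fun h => ha0 ?_, fun N hN => ?_⟩
    · have := haS
      rw [h, Submodule.mem_bot] at this
      exact this
    · by_contra hne
      have h1 := key N hne
      have h2 : S ≤ N := by
        rw [Submodule.span_le, Set.singleton_subset_iff]
        exact h1
      exact absurd (lt_of_lt_of_le hN h2) (lt_irrefl _)
  have hSs : IsSimpleModule Rᵐᵒᵖ S := (isSimpleModule_iff_isAtom).2 hSatom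
  obtain ⟨h, hh⟩ := (hV S hSs).out S.subtype S.injective_subtype (LinearMap.id)
  have hker : LinearMap.ker h = ⊥ := by
    by_contra hne
    have h1 := key _ hne
    rw [LinearMap.mem_ker] at h1
    have h2 := hh ⟨Submodule.Quotient.mk a, haS⟩
    rw [Submodule.subtype_apply, LinearMap.id_apply] at h2
    simp only at h2
    rw [h1] at h2
    exact ha0 (congrArg Subtype.val h2).symm
  rw [← isSimpleModule_iff_isCoatom]
  have hsurj : Function.Surjective h := fun s => ⟨s.1, hh s⟩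
  have e : (R ⧸ K) ≃ₗ[Rᵐᵒᵖ] S :=
    LinearEquiv.ofBijective h ⟨LinearMap.ker_eq_bot.1 hker, hsurj⟩
  exact IsSimpleModule.congr e

/-- Right V-rings are fully right idempotent: `a ∈ a R a R`. -/
theorem exists_fix
    (hV : ∀ (M : Type u) [AddCommGroup M] [Module Rᵐᵒᵖ M],
      IsSimpleModule Rᵐᵒᵖ M → Module.Injective Rᵐᵒᵖ M) (a : R) :
    ∃ c ∈ gen a, a * c = a := by
  let B : Submodule Rᵐᵒᵖ R := Submodule.span Rᵐᵒᵖ {y | ∃ r : R, y = a * r * a}
  have hB : a ∈ B := by
    by_contra ha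
    obtain ⟨K, hK, hBK, haK⟩ := exists_coatom hV B a ha
    have h1 : K ⊔ Submodule.span Rᵐᵒᵖ {a} = ⊤ := by
      refine hK.2 _ (lt_of_le_of_ne le_sup_left fun h => haK ?_)
      rw [h]
      exact Submodule.mem_sup_right (Submodule.mem_span_singleton_self a)
    have h2 : (1 : R) ∈ K ⊔ Submodule.span Rᵐᵒᵖ {a} := by rw [h1]; trivial
    obtain ⟨k, hk, n, hn, hkn⟩ := Submodule.mem_sup.1 h2
    obtain ⟨s, hs⟩ := Submodule.mem_span_singleton.1 hn
    have e1 : a * s.unop = n := hs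
    apply haK
    have h3 : a = k * a + a * s.unop * a := by
      rw [e1, ← add_mul, hkn, one_mul]
    rw [h3]
    refine K.add_mem (K.smul_mem (op a) hk) (hBK (Submodule.subset_span ⟨s.unop, rfl⟩))
  have h4 : ∀ y ∈ B, ∃ c ∈ gen a, y = a * c := by
    intro y hy
    refine Submodule.span_induction (p := fun y _ => ∃ c ∈ gen a, y = a * c) ?_ ?_ ?_ ?_ hy
    · rintro y ⟨r, rfl⟩
      exact ⟨r * a, mul_left_mem_gen r (self_mem_gen a), by rw [mul_assoc]⟩
    · exact ⟨0, zero_mem _, by simp⟩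
    · rintro y z _ _ ⟨c, hc, rfl⟩ ⟨d, hd, rfl⟩
      exact ⟨c + d, add_mem hc hd, by rw [mul_add]⟩
    · rintro s y _ ⟨c, hc, rfl⟩
      exact ⟨c * s.unop, mul_right_mem_gen _ hc, by
        change a * c * s.unop = _
        rw [mul_assoc]⟩
  obtain ⟨c, hc, hac⟩ := h4 a hB
  exact ⟨c, hc, hac.symm⟩

end basics

section field

universe v w

variable {R : Type u} [Ring R] {K : Type v} [Field K] {A : Type w} [Ring A] [Algebra K A]

/-- the multiplication ring of `R`, acting on the overring `A` -/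
def mulRing (K : Type v) [Field K] [Algebra K A] (ι : R →+* A) : Subring (Module.End K A) :=
  Subring.closure (Set.range (fun r : R => LinearMap.mulLeft K (ι r)) ∪
    Set.range (fun r : R => LinearMap.mulRight K (ι r)))

theorem mulRing_apply_mem (ι : R →+* A) (F : Module.End K A) (hF : F ∈ mulRing K ι) (x : R) :
    ∃ y ∈ gen x, F (ι x) = ι y := by
  have : ∀ x, ∃ y ∈ gen x, F (ι x) = ι y := by
    refine Subring.closure_induction (p := fun F _ => ∀ x : R, ∃ y ∈ gen x, F (ι x) = ι y)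
      ?_ ?_ ?_ ?_ ?_ ?_ hF
    · rintro F (⟨a, rfl⟩ | ⟨a, rfl⟩) x
      · exact ⟨a * x, mul_left_mem_gen a (self_mem_gen x), (map_mul ι a x).symm⟩
      · exact ⟨x * a, mul_right_mem_gen a (self_mem_gen x), (map_mul ι x a).symm⟩
    · intro x
      exact ⟨0, zero_mem _, (map_zero ι).symm⟩
    · intro x
      exact ⟨x, self_mem_gen x, rfl⟩
    · intro F G _ _ hF hG x
      obtain ⟨y, hy, h1⟩ := hF x
      obtain ⟨z, hz, h2⟩ := hG x
      refine ⟨y + z, add_mem hy hz, ?_⟩
      rw [map_add, ← h1, ← h2]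
      rfl
    · intro F _ hF x
      obtain ⟨y, hy, h1⟩ := hF x
      refine ⟨-y, neg_mem hy, ?_⟩
      rw [map_neg, ← h1]
      rfl
    · intro F G _ _ hF hG x
      obtain ⟨z, hz, h2⟩ := hG x
      obtain ⟨y, hy, h1⟩ := hF z
      refine ⟨y, gen_le hz hy, ?_⟩
      rw [← h1, ← h2]
      rfl
  exact this x

theorem exists_common (ι : R →+* A) (hι : Function.Injective ι)
    (hprime : ∀ a b : R, (∀ r : R, a * r * b = 0) → a = 0 ∨ b = 0)
    (hfix : ∀ a : R, ∃ c ∈ gen a, a * c = a) [Nontrivial R] (n : ℕ) :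
    ∀ W : Submodule K A, FiniteDimensional K W → Module.finrank K W = n →
      ∃ t : R, t ≠ 0 ∧ ∀ w : R, ι w ∈ W → w ≠ 0 → t ∈ gen w := by
  induction n using Nat.strong_induction_on with
  | _ n ih =>
  intro W hW hn
  by_cases hbot : ∀ w : R, ι w ∈ W → w = 0
  · exact ⟨1, one_ne_zero, fun w hw hw0 => absurd (hbot w hw) hw0⟩
  push Not at hbot
  obtain ⟨v0, hv0, hv0'⟩ := hbot
  -- a multiplication operator of minimal rank on `W` not killing all of `W ∩ R`
  have hex : ∃ m : ℕ, ∃ F ∈ mulRing K ι, (∃ w : R, ι w ∈ W ∧ F (ι w) ≠ 0) ∧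
      Module.finrank K (W.map F) = m := by
    refine ⟨_, 1, one_mem _, ⟨v0, hv0, fun h => hv0' (hι ?_)⟩, rfl⟩
    rw [map_zero]
    exact h
  classical
  obtain ⟨F, hF, ⟨w0, hw0, hFw0⟩, hm⟩ := Nat.find_spec hex
  have hmin : ∀ G ∈ mulRing K ι, (∃ w : R, ι w ∈ W ∧ G (ι w) ≠ 0) →
      Module.finrank K (W.map F) ≤ Module.finrank K (W.map G) := by
    intro G hG hGW
    rw [hm]
    exact Nat.find_min' hex ⟨G, hG, hGW, rfl⟩
  have hkill : ∀ G ∈ mulRing K ι, ∀ v ∈ W.map F, v ≠ 0 → G v = 0 →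
      ∀ w : R, ι w ∈ W → G (F (ι w)) = 0 := by
    intro G hG v hv hv0 hGv w hw
    by_contra hGu
    have h1 : W.map (G * F) = (W.map F).map G := by
      rw [← Submodule.map_comp]
      rfl
    have h3 := hmin (G * F) (mul_mem hG hF) ⟨w, hw, hGu⟩
    rw [h1] at h3
    -- rank-nullity for the restriction of `G`
    let g : (W.map F) →ₗ[K] A := G.domRestrict (W.map F)
    have h4 : LinearMap.range g = (W.map F).map G := by
      rw [LinearMap.range_domRestrict]
    have h5 := LinearMap.finrank_range_add_finrank_ker g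
    rw [h4] at h5
    have h6 : Module.finrank K (LinearMap.ker g) ≠ 0 := by
      intro h
      have h7 : LinearMap.ker g = ⊥ := Submodule.finrank_eq_zero.1 h
      have h8 : (⟨v, hv⟩ : W.map F) ∈ LinearMap.ker g := hGv
      rw [h7, Submodule.mem_bot] at h8
      exact hv0 (congrArg Subtype.val h8)
    omega
  -- any two nonzero elements of `F(W ∩ R)` generate the same ideal
  have hgen : ∀ w₁ w₂ y₁ y₂ : R, ι w₁ ∈ W → ι w₂ ∈ W → F (ι w₁) = ι y₁ → F (ι w₂) = ι y₂ →
      y₂ ≠ 0 → y₁ ∈ gen y₂ := by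
    intro w₁ w₂ y₁ y₂ h₁ h₂ e₁ e₂ hy
    obtain ⟨c, hc, hyc⟩ := hfix y₂
    have hG : (1 - LinearMap.mulRight K (ι c) : Module.End K A) ∈ mulRing K ι :=
      sub_mem (one_mem _) (Subring.subset_closure (Or.inr ⟨c, rfl⟩))
    have h1 := hkill _ hG (ι y₂) ⟨ι w₂, h₂, e₂⟩
      (fun h => hy (hι (by rw [h, map_zero]))) (by
      change ι y₂ - ι y₂ * ι c = 0
      rw [← map_mul, hyc, sub_self]) w₁ h₁
    have h2 : ι y₁ - ι y₁ * ι c = 0 := by
      rw [← e₁]
      exact h1
    rw [sub_eq_zero, ← map_mul] at h2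
    rw [hι h2]
    exact mul_left_mem_gen y₁ hc
  obtain ⟨u0, hu0, hu0'⟩ := mulRing_apply_mem ι F hF w0
  have hu00 : u0 ≠ 0 := by
    rintro rfl
    exact hFw0 (by rw [hu0', map_zero])
  -- the kernel part
  let W' : Submodule K A := W ⊓ LinearMap.ker F
  have hW' : FiniteDimensional K W' := Submodule.finiteDimensional_of_le inf_le_left
  have hlt : Module.finrank K W' < n := by
    rw [← hn]
    refine Submodule.finrank_lt_finrank_of_lt (lt_of_le_of_ne inf_le_left fun h => hFw0 ?_)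
    have : ι w0 ∈ W' := by rw [h]; exact hw0
    exact this.2
  obtain ⟨t, ht, ht'⟩ := ih _ hlt W' hW' rfl
  have hr : ∃ r : R, t * r * u0 ≠ 0 := by
    by_contra h
    push Not at h
    rcases hprime t u0 h with h | h
    · exact ht h
    · exact hu00 h
  obtain ⟨r, hr⟩ := hr
  refine ⟨t * r * u0, hr, fun w hw hw0' => ?_⟩
  by_cases hFw : F (ι w) = 0
  · exact mul_right_mem_gen _ (mul_right_mem_gen _ (ht' w ⟨hw, hFw⟩ hw0'))
  · obtain ⟨y, hy, hy'⟩ := mulRing_apply_mem ι F hF w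
    refine mul_left_mem_gen _ (gen_le hy ?_)
    refine hgen w0 w u0 y hw0 hw hu0' hy' ?_
    rintro rfl
    exact hFw (by rw [hy', map_zero])

theorem main (ι : R →+* A) (hι : Function.Injective ι)
    (hprime : ∀ a b : R, (∀ r : R, a * r * b = 0) → a = 0 ∨ b = 0)
    (hfix : ∀ a : R, ∃ c ∈ gen a, a * c = a) [Nontrivial R]
    (x : ℕ → A) (hx : ∀ r : R, r ≠ 0 → ∃ w ∈ gen r, w ≠ 0 ∧
      ι w ∈ Submodule.span K (Set.range x)) :
    ∃ m : Submodule Rᵐᵒᵖ R, IsCoatom m ∧ ∀ r : R, (∀ y : R, y * r ∈ m) → r = 0 := by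
  -- the finite-dimensional pieces
  let W : ℕ → Submodule K A := fun n => Submodule.span K (x '' Set.Iio n)
  have hWfd : ∀ n, FiniteDimensional K (W n) := fun n =>
    FiniteDimensional.span_of_finite K ((Set.finite_Iio n).image x)
  have hWmono : Monotone W := fun n k h =>
    Submodule.span_mono (Set.image_mono (Set.Iio_subset_Iio h))
  have hWtop : ∀ r ∈ Submodule.span K (Set.range x), ∃ n, r ∈ W n := by
    intro r h1
    refine Submodule.span_induction (p := fun r _ => ∃ n, r ∈ W n) ?_ ?_ ?_ ?_ h1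
    · rintro _ ⟨i, rfl⟩
      exact ⟨i + 1, Submodule.subset_span ⟨i, Nat.lt_succ_self i, rfl⟩⟩
    · exact ⟨0, zero_mem _⟩
    · rintro a b _ _ ⟨n, hn⟩ ⟨k, hk⟩
      exact ⟨max n k, add_mem (hWmono (le_max_left _ _) hn) (hWmono (le_max_right _ _) hk)⟩
    · rintro c a _ ⟨n, hn⟩
      exact ⟨n, Submodule.smul_mem _ c hn⟩
  have hcommon : ∀ n, ∃ t : R, t ≠ 0 ∧ ∀ w : R, ι w ∈ W n → w ≠ 0 → t ∈ gen w := fun n =>
    exists_common ι hι hprime hfix _ (W n) (hWfd n) rfl
  choose t ht ht' using hcommon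
  have hstep : ∀ (n : ℕ) (b : {b : R // b ≠ 0}), ∃ b' : {b : R // b ≠ 0},
      (∃ s : R, b'.1 = s * b.1) ∧ ∀ w : R, ι w ∈ W n → w ≠ 0 → b'.1 ∈ gen w := by
    rintro n ⟨b, hb⟩
    have hr : ∃ r : R, t n * r * b ≠ 0 := by
      by_contra h
      push Not at h
      rcases hprime (t n) b h with h | h
      · exact ht n h
      · exact hb h
    obtain ⟨r, hr⟩ := hr
    exact ⟨⟨t n * r * b, hr⟩, ⟨t n * r, rfl⟩, fun w hw hw0 =>
      mul_right_mem_gen _ (mul_right_mem_gen _ (ht' n w hw hw0))⟩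
  choose nxt hnxt1 hnxt2 using hstep
  let b : ℕ → {b : R // b ≠ 0} := fun n => Nat.rec ⟨1, one_ne_zero⟩ nxt n
  have hb1 : ∀ n, ∃ s : R, (b (n + 1)).1 = s * (b n).1 := fun n => hnxt1 n (b n)
  have hb2 : ∀ n, ∀ w : R, ι w ∈ W n → w ≠ 0 → (b (n + 1)).1 ∈ gen w := fun n => hnxt2 n (b n)
  have hb3 : ∀ n k, n ≤ k → ∀ y : R, (b n).1 * y = 0 → (b k).1 * y = 0 := by
    intro n k hnk y hy
    induction k, hnk using Nat.le_induction with
    | base => exact hy
    | succ k _ ih =>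
      obtain ⟨s, hs⟩ := hb1 k
      rw [hs, mul_assoc, ih, mul_zero]
  let ρ : Submodule Rᵐᵒᵖ R :=
    { carrier := {y | ∃ n, (b n).1 * y = 0}
      add_mem' := by
        rintro y z ⟨n, hn⟩ ⟨k, hk⟩
        refine ⟨max n k, ?_⟩
        rw [mul_add, hb3 n _ (le_max_left _ _) y hn, hb3 k _ (le_max_right _ _) z hk, add_zero]
      zero_mem' := ⟨0, mul_zero _⟩
      smul_mem' := by
        rintro s y ⟨n, hn⟩
        refine ⟨n, ?_⟩
        change (b n).1 * (y * s.unop) = 0
        rw [← mul_assoc, hn, zero_mul] }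
  have hρ : ρ ≠ ⊤ := by
    intro h
    have : (1 : R) ∈ ρ := by rw [h]; trivial
    obtain ⟨n, hn⟩ := this
    rw [mul_one] at hn
    exact (b n).2 hn
  have : IsCoatomic (Submodule Rᵐᵒᵖ R) := by
    refine CompleteLattice.coatomic_of_top_compact ((Submodule.fg_iff_compact _).1 ?_)
    refine ⟨{1}, ?_⟩
    refine eq_top_iff.2 fun y _ => ?_
    rw [Finset.coe_singleton]
    exact Submodule.mem_span_singleton.2 ⟨op y, one_mul y⟩
  obtain ⟨m, hm, hρm⟩ := (eq_top_or_exists_le_coatom ρ).resolve_left hρ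
  refine ⟨m, hm, fun r hr => ?_⟩
  by_contra hr0
  have hgen : ∀ y ∈ gen r, y ∈ m := by
    intro y hy
    refine AddSubgroup.closure_induction (p := fun y _ => y ∈ m) ?_ ?_ ?_ ?_ hy
    · rintro y ⟨a, s, rfl⟩
      exact m.smul_mem (op s) (hr a)
    · exact m.zero_mem
    · intro y z _ _ hy hz
      exact m.add_mem hy hz
    · intro y _ hy
      exact m.neg_mem hy
  obtain ⟨w, hw, hw0, hwx⟩ := hx r hr0
  obtain ⟨n, hn⟩ := hWtop _ hwx
  have h1 := hb2 n w hn hw0
  obtain ⟨c, hc, hbc⟩ := hfix (b (n + 1)).1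
  have h2 : c ∈ m := hgen c (gen_le hw (gen_le h1 hc))
  have h3 : 1 - c ∈ m := hρm ⟨n + 1, by rw [mul_sub, mul_one, hbc, sub_self]⟩
  apply hm.1
  rw [eq_top_iff]
  intro y _
  have h4 : (1 : R) ∈ m := by
    have := m.add_mem h3 h2
    rwa [sub_add_cancel] at this
  have := m.smul_mem (op y) h4
  rwa [show op y • (1 : R) = 1 * y from rfl, one_mul] at this

/-- a maximal right ideal containing no nonzero ideal gives a faithful simple right module -/
theorem faithful_simple (m : Submodule Rᵐᵒᵖ R) (hm : IsCoatom m)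
    (hm' : ∀ r : R, (∀ y : R, y * r ∈ m) → r = 0) :
    ∃ (M : Type u) (_ : AddCommGroup M) (_ : Module Rᵐᵒᵖ M),
      IsSimpleModule Rᵐᵒᵖ M ∧ ∀ r : Rᵐᵒᵖ, (∀ m : M, r • m = 0) → r = 0 := by
  refine ⟨R ⧸ m, inferInstance, inferInstance, isSimpleModule_iff_isCoatom.2 hm, ?_⟩
  intro r hr
  have h1 : r.unop = 0 := by
    refine hm' _ fun y => ?_
    have h2 := hr (Submodule.Quotient.mk y)
    rw [← Submodule.Quotient.mk_smul, Submodule.Quotient.mk_eq_zero] at h2
    exact h2
  rw [← MulOpposite.op_unop r, h1, MulOpposite.op_zero]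

end field

/-- the centre of a prime ring with `a ∈ aRaR` for all `a` is a field -/
theorem centre_isField (R : Type u) [Ring R] [Nontrivial R]
    (hprime : ∀ a b : R, (∀ r : R, a * r * b = 0) → a = 0 ∨ b = 0)
    (hfix : ∀ a : R, ∃ c ∈ gen a, a * c = a) : IsField (Subring.center R) := by
  refine ⟨⟨0, 1, zero_ne_one⟩, fun a b => mul_comm a b, ?_⟩
  intro z hz
  have hz0 : (z : R) ≠ 0 := fun h => hz (Subtype.ext h)
  have hzc : ∀ y : R, y * (z : R) = (z : R) * y := Subring.mem_center_iff.1 z.2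
  obtain ⟨c, hc, hzcc⟩ := hfix (z : R)
  have h1 : ∀ y ∈ gen (z : R), ∃ d : R, y = z * d := by
    intro y hy
    refine AddSubgroup.closure_induction (p := fun y _ => ∃ d : R, y = z * d) ?_ ?_ ?_ ?_ hy
    · rintro y ⟨a, s, rfl⟩
      exact ⟨a * s, by rw [hzc a, mul_assoc]⟩
    · exact ⟨0, by simp⟩
    · rintro y w _ _ ⟨d, rfl⟩ ⟨e, rfl⟩
      exact ⟨d + e, by rw [mul_add]⟩
    · rintro y _ ⟨d, rfl⟩
      exact ⟨-d, by rw [mul_neg]⟩
  obtain ⟨d, rfl⟩ := h1 c hc
  have h2 : (z : R) * d = 1 := by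
    rcases hprime (z : R) (1 - z * d) (fun r => by
      rw [← hzc r, mul_assoc, mul_sub, mul_one, hzcc, sub_self, mul_zero]) with h | h
    · exact absurd h hz0
    · rw [sub_eq_zero] at h
      exact h.symm
  have h3 : d ∈ Subring.center R := by
    rw [Subring.mem_center_iff]
    intro y
    have h4 : d * (z : R) = 1 := by rw [hzc d, h2]
    calc y * d = (d * z) * (y * d) := by rw [h4, one_mul]
      _ = d * (z * y) * d := by simp only [mul_assoc]
      _ = d * (y * z) * d := by rw [hzc y]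
      _ = d * y * (z * d) := by simp only [mul_assoc]
      _ = d * y := by rw [h2, mul_one]
  exact ⟨⟨d, h3⟩, Subtype.ext h2⟩

universe v w

/-- Let `R` be a prime ring all of whose simple right modules are injective.  If (a) `R` is a
subring of an algebra over a field, and some subspace of countable dimension of that algebra meets
every nonzero ideal of `R` nontrivially, or (b) `R` is countably generated as a module over its
centre, then `R` has a faithful simple right module. -/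
theorem result :
    (∀ (R : Type u) [Ring R] [Nontrivial R],
      (∀ a b : R, (∀ r : R, a * r * b = 0) → a = 0 ∨ b = 0) →
      (∀ (M : Type u) [AddCommGroup M] [Module Rᵐᵒᵖ M],
        IsSimpleModule Rᵐᵒᵖ M → Module.Injective Rᵐᵒᵖ M) →
      ∀ (K : Type v) [Field K] (A : Type w) [Ring A] [Algebra K A]
        (ι : R →+* A), Function.Injective ι → ∀ x : ℕ → A,
        (∀ I : TwoSidedIdeal R, I ≠ ⊥ →
          ∃ y ∈ I, y ≠ 0 ∧ ι y ∈ Submodule.span K (Set.range x)) →
      ∃ (M : Type u) (_ : AddCommGroup M) (_ : Module Rᵐᵒᵖ M),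
        IsSimpleModule Rᵐᵒᵖ M ∧ ∀ r : Rᵐᵒᵖ, (∀ m : M, r • m = 0) → r = 0) ∧
    (∀ (R : Type u) [Ring R] [Nontrivial R],
      (∀ a b : R, (∀ r : R, a * r * b = 0) → a = 0 ∨ b = 0) →
      (∀ (M : Type u) [AddCommGroup M] [Module Rᵐᵒᵖ M],
        IsSimpleModule Rᵐᵒᵖ M → Module.Injective Rᵐᵒᵖ M) →
      ∀ x : ℕ → R, Submodule.span (Subring.center R) (Set.range x) = ⊤ →
      ∃ (M : Type u) (_ : AddCommGroup M) (_ : Module Rᵐᵒᵖ M),
        IsSimpleModule Rᵐᵒᵖ M ∧ ∀ r : Rᵐᵒᵖ, (∀ m : M, r • m = 0) → r = 0) := by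
  refine ⟨?_, ?_⟩
  · intro R _ _ hprime hV K _ A _ _ ι hι x hx
    have hfix : ∀ a : R, ∃ c ∈ gen a, a * c = a := exists_fix hV
    have hx' : ∀ r : R, r ≠ 0 → ∃ w ∈ gen r, w ≠ 0 ∧ ι w ∈ Submodule.span K (Set.range x) := by
      intro r hr
      let I : TwoSidedIdeal R := TwoSidedIdeal.mk' (gen r : Set R) (zero_mem _)
        (fun h1 h2 => add_mem h1 h2) (fun h => neg_mem h) (fun h => mul_left_mem_gen _ h)
        (fun h => mul_right_mem_gen _ h)
      have hI : ∀ y, y ∈ I ↔ y ∈ gen r := fun y => TwoSidedIdeal.mem_mk' _ _ _ _ _ _ y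
      obtain ⟨y, hy, hy0, hyx⟩ := hx I (by
        intro h
        have h1 : r ∈ I := (hI r).2 (self_mem_gen r)
        rw [h, TwoSidedIdeal.mem_bot] at h1
        exact hr h1)
      exact ⟨y, (hI y).1 hy, hy0, hyx⟩
    obtain ⟨m, hm, hm'⟩ := main ι hι hprime hfix x hx'
    exact faithful_simple m hm hm'
  · intro R _ _ hprime hV x hx
    have hfix : ∀ a : R, ∃ c ∈ gen a, a * c = a := exists_fix hV
    let : Field (Subring.center R) := (centre_isField R hprime hfix).toField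
    obtain ⟨m, hm, hm'⟩ := main (K := Subring.center R) (RingHom.id R)
      Function.injective_id hprime hfix x (fun r hr => ⟨r, self_mem_gen r, hr, by
        rw [hx]; trivial⟩)
    exact faithful_simple m hm hm'

end Pool.Agent.Results.MP_2175e6_al.CountableDimensional
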